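import Mathlib

/-!
# Algebraicity of the trigonometric and power factors in the functional equations of the Gamma function
-/

set_option autoImplicit false

open Real

namespace Pool.Agent.Helper606_LR

lemma alg_exp (r : ℚ) : IsAlgebraic ℚ (Complex.exp ((π : ℂ) * r * Complex.I)) := by
  have hd : (r.den : ℂ) ≠ 0 := by exact_mod_cast r.den_ne_zero
  have h1 : Complex.exp ((π : ℂ) * r * Complex.I) ^ (2 * r.den) = 1 := by
    rw [← Complex.exp_nat_mul]
    rw [Complex.exp_eq_one_iff]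
    refine ⟨r.num, ?_⟩
    have h2 : (r : ℂ) = (r.num : ℂ) / (r.den : ℂ) := by
      exact_mod_cast (Rat.num_div_den r).symm
    rw [h2]
    push_cast
    field_simp
  have h3 : IsAlgebraic ℚ (Complex.exp ((π : ℂ) * r * Complex.I) ^ (2 * r.den)) := by
    rw [h1]
    exact isAlgebraic_one
  exact h3.of_pow (by have := r.den_pos; omega)

lemma alg_I : IsAlgebraic ℚ Complex.I := by
  have h : IsAlgebraic ℚ (Complex.I ^ 2) := by
    rw [Complex.I_sq]
    exact isAlgebraic_one.neg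
  exact h.of_pow (by norm_num)

lemma alg_sin (r : ℚ) : IsAlgebraic ℚ (Complex.sin ((π : ℂ) * r)) := by
  have h1 := alg_exp r
  have h2 : IsAlgebraic ℚ (Complex.exp (-((π : ℂ) * r) * Complex.I)) := by
    have h3 := alg_exp (-r)
    push_cast at h3
    rwa [mul_neg] at h3
  have h4 : IsAlgebraic ℚ ((2 : ℂ)⁻¹) := by
    have h5 : IsAlgebraic ℚ (algebraMap ℚ ℂ (2⁻¹)) := isAlgebraic_algebraMap _
    simpa using h5
  rw [Complex.sin]
  rw [div_eq_mul_inv]
  exact ((h2.sub h1).mul alg_I).mul h4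

/-- rational powers of positive integers are algebraic -/
lemma alg_rpow (n : ℕ) (r : ℚ) : IsAlgebraic ℚ (((n : ℝ) ^ (r : ℝ) : ℝ) : ℂ) := by
  have hd : (r.den : ℝ) ≠ 0 := by exact_mod_cast r.den_ne_zero
  have h1 : ((n : ℝ) ^ (r : ℝ)) ^ r.den = (n : ℝ) ^ r.num := by
    rw [← Real.rpow_natCast, ← Real.rpow_mul (by positivity), ← Real.rpow_intCast]
    congr 1
    have h2 : (r : ℝ) = (r.num : ℝ) / (r.den : ℝ) := by
      exact_mod_cast (Rat.num_div_den r).symm
    rw [h2]
    field_simp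
  have h3 : IsAlgebraic ℚ ((((n : ℝ) ^ (r : ℝ) : ℝ) : ℂ) ^ r.den) := by
    rw [← Complex.ofReal_pow, h1]
    have h5 : IsAlgebraic ℚ (algebraMap ℚ ℂ ((n : ℚ) ^ r.num)) := isAlgebraic_algebraMap _
    simpa using h5
  exact h3.of_pow r.den_pos

end Pool.Agent.Helper606_LR
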