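import Pool.Agent.Helper606_LR.Rank

/-!
# Counting the good characters
-/

set_option autoImplicit false

open Finset

namespace Pool.Agent.Helper606_LR

lemma exists_char (m : ℕ) [NeZero m] (a c : (ZMod m)ˣ) (h : c ∉ Subgroup.zpowers a) :
    ∃ θ : DirichletCharacter ℂ m, θ a = 1 ∧ θ c ≠ 1 := by
  have h1 : (QuotientGroup.mk' (Subgroup.zpowers a)) c ≠ 1 := by
    rw [Ne, QuotientGroup.mk'_apply, QuotientGroup.eq_one_iff]
    exact h
  have hex : Monoid.exponent ((ZMod m)ˣ ⧸ Subgroup.zpowers a) ≠ 0 := by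
    have := Monoid.ExponentExists.of_finite (G := (ZMod m)ˣ ⧸ Subgroup.zpowers a)
    exact this.exponent_ne_zero
  have hne : NeZero ((Monoid.exponent ((ZMod m)ˣ ⧸ Subgroup.zpowers a) : ℕ) : ℂ) := ⟨by exact_mod_cast hex⟩
  obtain ⟨φ, hφ⟩ := CommGroup.exists_apply_ne_one_of_hasEnoughRootsOfUnity ((ZMod m)ˣ ⧸ Subgroup.zpowers a) ℂ h1
  refine ⟨MulChar.ofUnitHom (φ.comp (QuotientGroup.mk' (Subgroup.zpowers a))), ?_, ?_⟩
  · rw [MulChar.ofUnitHom_coe]
    have h2 : (QuotientGroup.mk' (Subgroup.zpowers a)) a = 1 := by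
      rw [QuotientGroup.mk'_apply, QuotientGroup.eq_one_iff]
      exact Subgroup.mem_zpowers a
    rw [MonoidHom.comp_apply, h2, map_one, Units.val_one]
  · rw [MulChar.ofUnitHom_coe, MonoidHom.comp_apply]
    intro h3
    exact hφ (Units.ext h3)

/-- an odd character of the modulus `q` whose primitive character is `1` at `p` -/
lemma exists_odd_bad (q p m : ℕ) [NeZero q] (hmq : m ∣ q) (hcop : Nat.Coprime p m)
    (h : ∀ j : ℕ, ¬ m ∣ p ^ j + 1) : ∃ χ : DirichletCharacter ℂ q, χ.Odd ∧ χ.primitiveCharacter p = 1 := by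
  have hm0 : m ≠ 0 := by
    rintro rfl
    exact NeZero.ne q (Nat.eq_zero_of_zero_dvd hmq)
  have : NeZero m := ⟨hm0⟩
  obtain ⟨θ, h1, h2⟩ := exists_char m (ZMod.unitOfCoprime p hcop) (-1) (by
    intro hmem
    rw [← mem_powers_iff_mem_zpowers, Submonoid.mem_powers_iff] at hmem
    obtain ⟨j, hj⟩ := hmem
    apply h j
    have h3 := congrArg (fun x : (ZMod m)ˣ => (x : ZMod m)) hj
    simp only [Units.val_pow_eq_pow_val, ZMod.coe_unitOfCoprime, Units.val_neg, Units.val_one] at h3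
    rw [← ZMod.natCast_eq_zero_iff]
    push_cast
    rw [h3]
    ring)
  have hodd : θ.Odd := by
    rcases θ.even_or_odd with h3 | h3
    · exact absurd (by
        have h4 : θ (-1) = 1 := h3
        simpa using h4) h2
    · exact h3
  refine ⟨DirichletCharacter.changeLevel hmq θ, ?_, ?_⟩
  · have h4 := DirichletCharacter.changeLevel_eq_cast_of_dvd θ hmq (-1)
    unfold DirichletCharacter.Odd
    unfold DirichletCharacter.Odd at hodd
    rw [Units.val_neg, Units.val_one] at h4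
    rw [h4, ← hodd]
    congr 1
    rw [ZMod.cast_neg hmq, ZMod.cast_one hmq]
  · have h5 := DirichletCharacter.primitiveCharacter_changeLevel_apply hmq θ (p : ℤ)
    have h6 := DirichletCharacter.primitiveCharacter_apply_of_isCoprime θ (a := (p : ℤ)) (Nat.isCoprime_iff_coprime.2 hcop)
    rw [h6] at h5
    simp only [ZMod.coe_unitOfCoprime] at h1
    simpa [h1] using h5

lemma card_odd (q : ℕ) [NeZero q] (hq : 2 < q) :
    2 * Nat.card {χ : DirichletCharacter ℂ q // χ.Odd} = q.totient := by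
  classical
  have : Fintype (DirichletCharacter ℂ q) := Fintype.ofFinite _
  have hne : (-1 : ZMod q) ≠ 1 := by
    intro h
    have h1 : ((2 : ℕ) : ZMod q) = 0 := by
      push_cast
      linear_combination -h
    rw [ZMod.natCast_eq_zero_iff] at h1
    have := Nat.le_of_dvd (by norm_num) h1
    omega
  obtain ⟨χ₀, hχ₀⟩ := DirichletCharacter.exists_apply_ne_one_of_hasEnoughRootsOfUnity ℂ hne
  have hodd₀ : χ₀.Odd := χ₀.even_or_odd.resolve_left hχ₀
  have h1 : χ₀ (-1) = -1 := hodd₀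
  let e : {χ : DirichletCharacter ℂ q // χ.Odd} ≃ {χ : DirichletCharacter ℂ q // ¬ χ.Odd} :=
    { toFun := fun χ => ⟨χ₀ * χ.1, fun h => by
        have h2 : (χ₀ * χ.1) (-1) = -1 := h
        have h3 : χ.1 (-1) = -1 := χ.2
        rw [MulChar.mul_apply, h1, h3] at h2
        norm_num at h2⟩
      invFun := fun χ => ⟨χ₀⁻¹ * χ.1, by
        have h3 : χ.1 (-1) = 1 := χ.1.even_or_odd.resolve_right χ.2
        show (χ₀⁻¹ * χ.1) (-1) = -1
        rw [MulChar.mul_apply, h3, MulChar.inv_apply_eq_inv', h1]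
        norm_num⟩
      left_inv := fun χ => by
        apply Subtype.ext
        simp
      right_inv := fun χ => by
        apply Subtype.ext
        simp }
  have h2 := Nat.card_congr e
  have h3 : Nat.card {χ : DirichletCharacter ℂ q // χ.Odd} + Nat.card {χ : DirichletCharacter ℂ q // ¬ χ.Odd} =
      Nat.card (DirichletCharacter ℂ q) := by
    rw [Nat.card_eq_fintype_card, Nat.card_eq_fintype_card, Nat.card_eq_fintype_card]
    rw [Fintype.card_subtype_compl]
    have := Fintype.card_subtype_le (fun χ : DirichletCharacter ℂ q => χ.Odd)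
    omega
  have h7 : Nat.card (DirichletCharacter ℂ q) = q.totient := DirichletCharacter.card_eq_totient_of_hasEnoughRootsOfUnity ℂ q
  omega

lemma card_good_le (q : ℕ) [NeZero q] :
    Nat.card {χ : DirichletCharacter ℂ q // Good q χ} ≤ Nat.card {χ : DirichletCharacter ℂ q // χ.Odd} :=
  Nat.card_le_card_of_injective (fun χ => ⟨χ.1, χ.2.1⟩) (fun a b h => by
    have := congrArg Subtype.val h
    exact Subtype.ext this)

lemma card_good_lt_iff (q : ℕ) [NeZero q] :
    Nat.card {χ : DirichletCharacter ℂ q // Good q χ} < Nat.card {χ : DirichletCharacter ℂ q // χ.Odd} ↔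
      ∃ χ : DirichletCharacter ℂ q, χ.Odd ∧ ¬ Good q χ := by
  classical
  have : Fintype (DirichletCharacter ℂ q) := Fintype.ofFinite _
  rw [Nat.card_eq_fintype_card, Nat.card_eq_fintype_card, Fintype.card_subtype, Fintype.card_subtype]
  constructor
  · intro h
    by_contra hcon
    push Not at hcon
    have h1 : (univ.filter fun χ : DirichletCharacter ℂ q => χ.Odd) ⊆ univ.filter fun χ : DirichletCharacter ℂ q => Good q χ := by
      intro χ hχ
      rw [mem_filter] at hχ ⊢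
      exact ⟨hχ.1, hcon χ hχ.2⟩
    exact absurd (Finset.card_le_card h1) (not_le.2 h)
  · rintro ⟨χ, h1, h2⟩
    apply Finset.card_lt_card
    rw [Finset.ssubset_iff_of_subset]
    · exact ⟨χ, mem_filter.2 ⟨mem_univ _, h1⟩, fun h => h2 (mem_filter.1 h).2⟩
    · intro χ' h'
      rw [mem_filter] at h' ⊢
      exact ⟨h'.1, h'.2.1⟩

/-- an odd character whose primitive character is `1` at `p` forces `-1` not to be a power of `p` -/
lemma not_dvd_of_odd_bad (q p : ℕ) [NeZero q] (hp : p.Prime) (χ : DirichletCharacter ℂ q) (hodd : χ.Odd)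
    (hχ : χ.primitiveCharacter p = 1) (j : ℕ) : ¬ q / p ^ q.factorization p ∣ p ^ j + 1 := by
  have : Fact p.Prime := ⟨hp⟩
  have hmem := (DirichletCharacter.mem_subgroupOfPrimitiveMapToOne_iff (χ := χ) p).2 hχ
  simp only [DirichletCharacter.subgroupOfPrimitiveMapToOne, Subgroup.mem_map, DirichletCharacter.mem_annihilator_iff,
    Set.mem_singleton_iff, forall_eq, ZMod.coe_unitOfCoprime] at hmem
  obtain ⟨θ, hθ, rfl⟩ := hmem
  intro hdvd
  have h1 : (p : ZMod (q / p ^ q.factorization p)) ^ j = -1 := by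
    rw [← ZMod.natCast_eq_zero_iff] at hdvd
    push_cast at hdvd
    exact eq_neg_of_add_eq_zero_left hdvd
  have h2 : θ (-1) = 1 := by
    rw [← h1, map_pow, hθ, one_pow]
  have h4 := DirichletCharacter.changeLevel_eq_cast_of_dvd θ (Nat.ordCompl_dvd q p) (-1)
  rw [Units.val_neg, Units.val_one, ZMod.cast_neg (Nat.ordCompl_dvd q p), ZMod.cast_one (Nat.ordCompl_dvd q p), h2] at h4
  have h5 : (DirichletCharacter.changeLevel (Nat.ordCompl_dvd q p) θ) (-1) = -1 := hodd
  rw [h5] at h4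
  norm_num at h4

lemma card_good_lt_iff' (q : ℕ) [NeZero q] (hq : 2 < q) :
    Nat.card {χ : DirichletCharacter ℂ q // Good q χ} < q.totient / 2 ↔
      ∃ p : ℕ, p.Prime ∧ p ∣ q ∧ ∀ j : ℕ, ¬ q / p ^ q.factorization p ∣ p ^ j + 1 := by
  have h1 := card_odd q hq
  have h2 : q.totient / 2 = Nat.card {χ : DirichletCharacter ℂ q // χ.Odd} := by omega
  rw [h2, card_good_lt_iff]
  constructor
  · rintro ⟨χ, hodd, hng⟩
    have h4 : ∃ p : ℕ, p.Prime ∧ p ∣ q ∧ χ.primitiveCharacter p = 1 := by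
      by_contra hcon
      push Not at hcon
      exact hng ⟨hodd, hcon⟩
    obtain ⟨p, hp, hpq, h5⟩ := h4
    exact ⟨p, hp, hpq, fun j => not_dvd_of_odd_bad q p hp χ hodd h5 j⟩
  · rintro ⟨p, hp, hpq, hj⟩
    obtain ⟨χ, h3, h4⟩ := exists_odd_bad q p (q / p ^ q.factorization p) (Nat.ordCompl_dvd q p)
      (Nat.coprime_ordCompl hp (NeZero.ne q)) hj
    exact ⟨χ, h3, fun h => h.2 p hp hpq h4⟩

/-- two prime divisors congruent to `3` modulo `4` are enough -/
lemma two_primes (q p r : ℕ) [NeZero q] (hp : p.Prime) (hr : r.Prime) (hpr : p ≠ r) (hp4 : p % 4 = 3) (hr4 : r % 4 = 3)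
    (hpq : p ∣ q) (hrq : r ∣ q) :
    ∃ p : ℕ, p.Prime ∧ p ∣ q ∧ ∀ j : ℕ, ¬ q / p ^ q.factorization p ∣ p ^ j + 1 := by
  have key : ∀ p r : ℕ, p.Prime → r.Prime → p ≠ r → r % 4 = 3 → p ∣ q → r ∣ q → IsSquare (p : ZMod r) →
      ∃ p : ℕ, p.Prime ∧ p ∣ q ∧ ∀ j : ℕ, ¬ q / p ^ q.factorization p ∣ p ^ j + 1 := by
    intro p r hp hr hpr hr4 hpq hrq hsq
    refine ⟨p, hp, hpq, fun j hj => ?_⟩
    have : Fact r.Prime := ⟨hr⟩
    have h1 : r ∣ q / p ^ q.factorization p := by
      apply Nat.dvd_ordCompl_of_dvd_not_dvd hrq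
      intro h
      exact hpr ((Nat.prime_dvd_prime_iff_eq hp hr).1 h)
    have h2 : r ∣ p ^ j + 1 := h1.trans hj
    rw [← ZMod.natCast_eq_zero_iff] at h2
    push_cast at h2
    obtain ⟨y, hy⟩ := hsq
    have h3 : (y ^ j) ^ 2 = (-1 : ZMod r) := by
      have : (p : ZMod r) ^ j = -1 := eq_neg_of_add_eq_zero_left h2
      rw [← this, hy, ← pow_mul, mul_comm j 2, pow_mul, pow_two]
    exact ZMod.mod_four_ne_three_of_sq_eq_neg_one h3 hr4
  have : Fact r.Prime := ⟨hr⟩
  have : Fact p.Prime := ⟨hp⟩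
  have h1 := ZMod.exists_sq_eq_prime_iff_of_mod_four_eq_three hr4 hp4 hpr.symm
  by_cases h2 : IsSquare (p : ZMod r)
  · exact key p r hp hr hpr hr4 hpq hrq h2
  · have h3 : IsSquare (r : ZMod p) := by
      by_contra h4
      exact h2 (h1.2 h4)
    exact key r p hr hp hpr.symm hp4 hrq hpq h3

end Pool.Agent.Helper606_LR
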