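import Pool.Agent.H98R3.OM.A1

/-!
# Almost all integers have two different prime divisors congruent to `3` modulo `4`
-/

set_option autoImplicit false

open Finset Filter Topology

namespace Pool.Agent.Helper606_LR

/-- the number of `p ∈ P` dividing `n` -/
noncomputable def w (P : Finset ℕ) (n : ℕ) : ℝ := ∑ p ∈ P, if p ∣ n then 1 else 0

lemma sum_dvd_succ (d X : ℕ) : ∑ e ∈ range X, (if d ∣ e + 1 then (1 : ℝ) else 0) = ((X / d : ℕ) : ℝ) := by
  rw [← Nat.card_multiples X d, Finset.sum_boole]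

lemma div_le_real (X d : ℕ) : ((X / d : ℕ) : ℝ) ≤ (X : ℝ) * (1 / (d : ℝ)) := by
  rw [mul_one_div]
  exact Nat.cast_div_le

lemma real_le_div (X d : ℕ) (hd : 0 < d) : (X : ℝ) * (1 / (d : ℝ)) - 1 ≤ ((X / d : ℕ) : ℝ) := by
  have h1 : X < d * (X / d + 1) := by
    have := Nat.lt_mul_div_succ X hd
    exact this
  have h2 : (X : ℝ) < d * ((X / d : ℕ) + 1) := by exact_mod_cast h1
  have hd' : (0 : ℝ) < d := by exact_mod_cast hd
  rw [mul_one_div]
  have h3 : (X : ℝ) / d < (X / d : ℕ) + 1 := by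
    rw [div_lt_iff₀ hd']
    linarith [mul_comm (d : ℝ) (((X / d : ℕ) : ℝ) + 1)]
  linarith

lemma sum_w (P : Finset ℕ) (hP : ∀ p ∈ P, p.Prime) (X : ℕ) :
    (X : ℝ) * (∑ p ∈ P, 1 / (p : ℝ)) - P.card ≤ ∑ e ∈ range X, w P (e + 1) := by
  unfold w
  rw [Finset.sum_comm]
  have h1 : ∀ p ∈ P, (X : ℝ) * (1 / (p : ℝ)) - 1 ≤ ∑ e ∈ range X, (if p ∣ e + 1 then (1 : ℝ) else 0) := by
    intro p hp
    rw [sum_dvd_succ]
    exact real_le_div X p (hP p hp).pos
  calc (X : ℝ) * (∑ p ∈ P, 1 / (p : ℝ)) - P.card = ∑ p ∈ P, ((X : ℝ) * (1 / (p : ℝ)) - 1) := by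
        rw [Finset.sum_sub_distrib, Finset.mul_sum]
        simp
    _ ≤ _ := Finset.sum_le_sum h1

lemma sum_w_sq (P : Finset ℕ) (hP : ∀ p ∈ P, p.Prime) (X : ℕ) :
    ∑ e ∈ range X, (w P (e + 1)) ^ 2 ≤ (X : ℝ) * (∑ p ∈ P, 1 / (p : ℝ)) + (X : ℝ) * (∑ p ∈ P, 1 / (p : ℝ)) ^ 2 := by
  classical
  have h1 : ∀ e : ℕ, (w P (e + 1)) ^ 2 = ∑ p ∈ P, ∑ r ∈ P, (if p ∣ e + 1 ∧ r ∣ e + 1 then (1 : ℝ) else 0) := by
    intro e
    unfold w
    rw [pow_two, Finset.sum_mul_sum]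
    refine Finset.sum_congr rfl fun p _ => Finset.sum_congr rfl fun r _ => ?_
    by_cases h1 : p ∣ e + 1 <;> by_cases h2 : r ∣ e + 1 <;> simp [h1, h2]
  simp_rw [h1]
  rw [Finset.sum_comm]
  have h2 : ∀ p ∈ P, ∑ e ∈ range X, ∑ r ∈ P, (if p ∣ e + 1 ∧ r ∣ e + 1 then (1 : ℝ) else 0) ≤
      (X : ℝ) * (1 / (p : ℝ)) + (X : ℝ) * ((1 / (p : ℝ)) * ∑ r ∈ P, 1 / (r : ℝ)) := by
    intro p hp
    rw [Finset.sum_comm]
    have h3 : ∀ r ∈ P, ∑ e ∈ range X, (if p ∣ e + 1 ∧ r ∣ e + 1 then (1 : ℝ) else 0) ≤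
        (if r = p then (X : ℝ) * (1 / (p : ℝ)) else 0) + (X : ℝ) * ((1 / (p : ℝ)) * (1 / (r : ℝ))) := by
      intro r hr
      have hp0 : (0 : ℝ) < p := by exact_mod_cast (hP p hp).pos
      have hr0 : (0 : ℝ) < r := by exact_mod_cast (hP r hr).pos
      by_cases hpr : r = p
      · subst hpr
        rw [if_pos rfl]
        simp only [and_self]
        rw [sum_dvd_succ]
        have h4 := div_le_real X r
        have h5 : (0 : ℝ) ≤ (X : ℝ) * ((1 / (r : ℝ)) * (1 / (r : ℝ))) := by positivity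
        linarith
      · rw [if_neg hpr, zero_add]
        have hcop : Nat.Coprime p r := (Nat.coprime_primes (hP p hp) (hP r hr)).2 (Ne.symm hpr)
        have h6 : ∀ e : ℕ, (if p ∣ e + 1 ∧ r ∣ e + 1 then (1 : ℝ) else 0) = if p * r ∣ e + 1 then (1 : ℝ) else 0 := by
          intro e
          have : (p ∣ e + 1 ∧ r ∣ e + 1) ↔ p * r ∣ e + 1 :=
            ⟨fun h => Nat.Coprime.mul_dvd_of_dvd_of_dvd hcop h.1 h.2, fun h => ⟨(Dvd.intro _ rfl).trans h, (Dvd.intro_left _ rfl).trans h⟩⟩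
          simp [this]
        simp_rw [h6]
        rw [sum_dvd_succ]
        refine (div_le_real X (p * r)).trans (le_of_eq ?_)
        push_cast
        field_simp
    refine (Finset.sum_le_sum h3).trans (le_of_eq ?_)
    rw [Finset.sum_add_distrib, Finset.sum_ite_eq' P p, if_pos hp, ← Finset.mul_sum, ← Finset.mul_sum]
  refine (Finset.sum_le_sum h2).trans (le_of_eq ?_)
  rw [Finset.sum_add_distrib, ← Finset.mul_sum, ← Finset.mul_sum, ← Finset.sum_mul, pow_two]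

lemma variance (P : Finset ℕ) (hP : ∀ p ∈ P, p.Prime) (X : ℕ) :
    ∑ e ∈ range X, (w P (e + 1) - ∑ p ∈ P, 1 / (p : ℝ)) ^ 2 ≤
      (X : ℝ) * (∑ p ∈ P, 1 / (p : ℝ)) + 2 * (∑ p ∈ P, 1 / (p : ℝ)) * P.card := by
  set s := ∑ p ∈ P, 1 / (p : ℝ) with hs
  have hs0 : 0 ≤ s := Finset.sum_nonneg fun p _ => by positivity
  have h1 := sum_w P hP X
  have h2 := sum_w_sq P hP X
  rw [← hs] at h1 h2
  have h3 : ∑ e ∈ range X, (w P (e + 1) - s) ^ 2 = ∑ e ∈ range X, (w P (e + 1)) ^ 2 - 2 * s * ∑ e ∈ range X, w P (e + 1) + X * s ^ 2 := by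
    rw [Finset.mul_sum, ← Finset.sum_sub_distrib]
    have : (X : ℝ) * s ^ 2 = ∑ e ∈ range X, s ^ 2 := by simp
    rw [this, ← Finset.sum_add_distrib]
    refine Finset.sum_congr rfl fun e _ => ?_
    ring
  rw [h3]
  nlinarith [mul_le_mul_of_nonneg_left h1 (by linarith : (0 : ℝ) ≤ 2 * s)]

open Classical in
/-- Almost all positive integers have two different prime divisors congruent to `3` modulo `4`. -/
theorem density_two (ε : ℝ) (hε : 0 < ε) :
    ∃ X₀ : ℕ, ∀ X ≥ X₀, (((range X).filter fun e => ¬ ∃ p r : ℕ, p.Prime ∧ r.Prime ∧ p ≠ r ∧ p % 4 = 3 ∧ r % 4 = 3 ∧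
      p ∣ e + 1 ∧ r ∣ e + 1).card : ℝ) ≤ ε * X := by
  have hu : IsUnit (3 : ZMod 4) := by decide
  have hns := Pool.Agent.H98R3.OM.not_summable_class hu
  -- a finite set with large sum
  obtain ⟨U, hU⟩ : ∃ U : Finset ℕ, 2 + 8 / ε < ∑ n ∈ U, (if n.Prime ∧ (n : ZMod 4) = 3 then (1 : ℝ) / n else 0) := by
    by_contra hcon
    push Not at hcon
    exact hns (summable_of_sum_le (fun n => by split_ifs <;> positivity) hcon)
  set P := U.filter fun n : ℕ => n.Prime ∧ (n : ZMod 4) = 3 with hPdef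
  have hP : ∀ p ∈ P, p.Prime := fun p hp => (mem_filter.1 hp).2.1
  have hP4 : ∀ p ∈ P, p % 4 = 3 := by
    intro p hp
    have h1 := (mem_filter.1 hp).2.2
    have h2 : ((p : ℕ) : ZMod 4) = ((3 : ℕ) : ZMod 4) := by exact_mod_cast h1
    rw [ZMod.natCast_eq_natCast_iff'] at h2
    exact h2
  set s := ∑ p ∈ P, 1 / (p : ℝ) with hs
  have hsU : 2 + 8 / ε < s := by
    rw [hs, hPdef, Finset.sum_filter]
    exact hU
  have h8 : 0 < 8 / ε := by positivity
  have hs2 : 2 < s := by linarith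
  obtain ⟨X₀, hX₀⟩ := exists_nat_gt (16 * (P.card : ℝ) / ε)
  refine ⟨X₀, fun X hX => ?_⟩
  have hXr : 16 * (P.card : ℝ) / ε < X := lt_of_lt_of_le hX₀ (by exact_mod_cast hX)
  set S := (range X).filter fun e => ¬ ∃ p r : ℕ, p.Prime ∧ r.Prime ∧ p ≠ r ∧ p % 4 = 3 ∧ r % 4 = 3 ∧
      p ∣ e + 1 ∧ r ∣ e + 1 with hS
  have hw : ∀ e ∈ S, w P (e + 1) ≤ 1 := by
    intro e he
    have h1 := (mem_filter.1 he).2
    unfold w
    rw [Finset.sum_boole]
    have h2 : (P.filter fun p => p ∣ e + 1).card ≤ 1 := by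
      rw [Finset.card_le_one]
      intro p hp r hr
      rw [mem_filter] at hp hr
      by_contra hpr
      exact h1 ⟨p, r, hP p hp.1, hP r hr.1, hpr, hP4 p hp.1, hP4 r hr.1, hp.2, hr.2⟩
    exact_mod_cast h2
  have hvar := variance P hP X
  rw [← hs] at hvar
  have h3 : (S.card : ℝ) * (s ^ 2 / 4) ≤ ∑ e ∈ range X, (w P (e + 1) - s) ^ 2 := by
    calc (S.card : ℝ) * (s ^ 2 / 4) = ∑ e ∈ S, s ^ 2 / 4 := by simp
      _ ≤ ∑ e ∈ S, (w P (e + 1) - s) ^ 2 := by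
        refine Finset.sum_le_sum fun e he => ?_
        have := hw e he
        nlinarith
      _ ≤ ∑ e ∈ range X, (w P (e + 1) - s) ^ 2 :=
        Finset.sum_le_sum_of_subset_of_nonneg (Finset.filter_subset _ _) fun _ _ _ => sq_nonneg _
  have h4 : (S.card : ℝ) * (s ^ 2 / 4) ≤ X * s + 2 * s * P.card := h3.trans hvar
  have hs0 : 0 < s := by linarith
  have h5 : (S.card : ℝ) * s ≤ 4 * X + 8 * P.card := by
    have h6 : ((S.card : ℝ) * s) * (s / 4) ≤ (4 * X + 8 * P.card) * (s / 4) := by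
      calc ((S.card : ℝ) * s) * (s / 4) = (S.card : ℝ) * (s ^ 2 / 4) := by ring
        _ ≤ _ := h4
        _ = _ := by ring
    exact le_of_mul_le_mul_right h6 (by positivity)
  have h7 : 16 * (P.card : ℝ) < X * ε := by
    rwa [div_lt_iff₀ hε] at hXr
  have h9 : (8 / ε) * (ε * X) = 8 * X := by
    field_simp
  by_contra hcon
  push Not at hcon
  have h10 : (8 / ε) * (ε * X) < s * (S.card : ℝ) := by
    have hX0 : (0 : ℝ) ≤ ε * X := by positivity
    calc (8 / ε) * (ε * X) ≤ s * (ε * X) := by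
          apply mul_le_mul_of_nonneg_right _ hX0
          linarith
      _ < s * (S.card : ℝ) := by
          apply mul_lt_mul_of_pos_left hcon hs0
  rw [h9] at h10
  have h11 : (P.card : ℝ) ≤ X / 2 ∨ (X : ℝ) / 2 < P.card := le_or_gt _ _
  rcases h11 with h11 | h11
  · linarith
  · -- `P.card > X / 2`: then `8 X < 16 P.card < X ε`, so `ε > 8`, and the bound is trivial
    have h12 : 8 * (X : ℝ) < X * ε := by linarith
    have hX1 : (0 : ℝ) < X := by
      have h13 : (0 : ℝ) ≤ P.card := Nat.cast_nonneg _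
      have h14 : (0 : ℝ) < X * ε := by linarith
      exact (pos_iff_pos_of_mul_pos h14).2 hε
    have h15 : (S.card : ℝ) ≤ X := by
      have h16 := Finset.card_filter_le (range X) (fun e => ¬ ∃ p r : ℕ, p.Prime ∧ r.Prime ∧ p ≠ r ∧ p % 4 = 3 ∧ r % 4 = 3 ∧
        p ∣ e + 1 ∧ r ∣ e + 1)
      rw [Finset.card_range] at h16
      exact_mod_cast h16
    linarith

end Pool.Agent.Helper606_LR
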