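import Pool.Agent.Helper606_LR.Alg
import Pool.Agent.R260.LrA

/-!
# The distribution of `log Γ` modulo logarithms of numbers algebraic over `ℚ(π)`
-/

set_option autoImplicit false

open Real

namespace Pool.Agent.Helper606_LR

/-- the real numbers `x` with `exp x` algebraic over the subalgebra `A` -/
noncomputable def Lam (A : Subalgebra ℚ ℂ) : Submodule ℚ ℝ where
  carrier := {x | IsAlgebraic A ((Real.exp x : ℝ) : ℂ)}
  zero_mem' := by
    show IsAlgebraic A ((Real.exp 0 : ℝ) : ℂ)
    rw [Real.exp_zero]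
    simpa using (isAlgebraic_one : IsAlgebraic A (1 : ℂ))
  add_mem' := by
    intro x y hx hy
    show IsAlgebraic A ((Real.exp (x + y) : ℝ) : ℂ)
    rw [Real.exp_add, Complex.ofReal_mul]
    exact IsAlgebraic.mul hx hy
  smul_mem' := by
    intro r x hx
    show IsAlgebraic A ((Real.exp (r • x) : ℝ) : ℂ)
    have hx' : IsAlgebraic A ((Real.exp x : ℝ) : ℂ) := hx
    have hd : (r.den : ℝ) ≠ 0 := by exact_mod_cast r.den_ne_zero
    have h1 : (Real.exp (r • x)) ^ r.den = (Real.exp x) ^ r.num := by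
      rw [← Real.exp_nat_mul, ← Real.rpow_intCast, ← Real.exp_mul]
      congr 1
      rw [Rat.smul_def]
      have h2 : (r : ℝ) = (r.num : ℝ) / (r.den : ℝ) := by
        exact_mod_cast (Rat.num_div_den r).symm
      rw [h2]
      field_simp
    have h3 : IsAlgebraic A (((Real.exp (r • x) : ℝ) : ℂ) ^ r.den) := by
      rw [← Complex.ofReal_pow, h1, Complex.ofReal_zpow]
      rcases r.num with n | n
      · simpa using hx'.pow n
      · rw [zpow_negSucc]
        exact (hx'.pow (n + 1)).inv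
    exact h3.of_pow r.den_pos

lemma mem_Lam {A : Subalgebra ℚ ℂ} {x : ℝ} : x ∈ Lam A ↔ IsAlgebraic A ((Real.exp x : ℝ) : ℂ) := Iff.rfl

lemma log_mem_Lam {A : Subalgebra ℚ ℂ} {y : ℝ} (hy : 0 < y) (h : IsAlgebraic A (y : ℂ)) : Real.log y ∈ Lam A := by
  rw [mem_Lam, Real.exp_log hy]
  exact h

lemma ext_scal {A : Subalgebra ℚ ℂ} {z : ℂ} (h : IsAlgebraic ℚ z) : IsAlgebraic A z :=
  h.extendScalars (algebraMap ℚ A).injective

variable (A : Subalgebra ℚ ℂ)

/-- the class of `log Γ(x)`, `x` modulo `1` -/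
noncomputable def g (x : ℚ) : ℝ ⧸ Lam A :=
  Submodule.Quotient.mk (Real.log (Real.Gamma ((Int.fract x : ℚ) : ℝ)))

lemma mk_eq_zero {x : ℝ} (h : x ∈ Lam A) : (Submodule.Quotient.mk x : ℝ ⧸ Lam A) = 0 :=
  (Submodule.Quotient.mk_eq_zero _).2 h

lemma mk_log_rat (r : ℚ) (hr : 0 < r) : (Submodule.Quotient.mk (Real.log (r : ℝ)) : ℝ ⧸ Lam A) = 0 := by
  apply mk_eq_zero
  apply log_mem_Lam (by exact_mod_cast hr)
  apply ext_scal
  have h5 : IsAlgebraic ℚ (algebraMap ℚ ℂ r) := isAlgebraic_algebraMap _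
  simpa using h5

lemma mk_add (x y : ℝ) : (Submodule.Quotient.mk (x + y) : ℝ ⧸ Lam A) = Submodule.Quotient.mk x + Submodule.Quotient.mk y :=
  rfl

lemma mk_sum {ι : Type} (s : Finset ι) (f : ι → ℝ) : (Submodule.Quotient.mk (∑ i ∈ s, f i) : ℝ ⧸ Lam A) =
    ∑ i ∈ s, Submodule.Quotient.mk (f i) := by
  exact map_sum (Lam A).mkQ f s

/-- the class of `log Γ` -/
noncomputable def lg (x : ℚ) : ℝ ⧸ Lam A := Submodule.Quotient.mk (Real.log (Real.Gamma (x : ℝ)))

lemma lg_add_one (x : ℚ) (hx : 0 < x) : lg A (x + 1) = lg A x := by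
  unfold lg
  have hx' : (0 : ℝ) < x := by exact_mod_cast hx
  push_cast
  rw [Real.Gamma_add_one hx'.ne', Real.log_mul hx'.ne' (Real.Gamma_pos_of_pos hx').ne', mk_add, mk_log_rat A x hx, zero_add]

lemma lg_add_nat (x : ℚ) (hx : 0 < x) (n : ℕ) : lg A (x + n) = lg A x := by
  induction n with
  | zero => simp
  | succ n ih =>
    rw [Nat.cast_succ, ← add_assoc, lg_add_one A _ (by positivity), ih]

lemma g_add_int (x : ℚ) (n : ℤ) : g A (x + n) = g A x := by
  unfold g
  rw [Int.fract_add_intCast]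

lemma g_add_nat (x : ℚ) (n : ℕ) : g A (x + n) = g A x := by
  have := g_add_int A x n
  simpa using this

lemma g_int (n : ℤ) : g A n = 0 := by
  unfold g
  rw [Int.fract_intCast]
  simp [Real.Gamma_zero]

lemma lg_eq_g (x : ℚ) (hx : 0 < x) : lg A x = g A x := by
  have hf : 0 ≤ ⌊x⌋ := Int.floor_nonneg.2 hx.le
  obtain ⟨n, hn⟩ := Int.eq_ofNat_of_zero_le hf
  have hx1 : x = Int.fract x + n := by
    have h := Int.fract_add_floor x
    rw [hn] at h
    push_cast at h
    exact h.symm
  rcases (Int.fract_nonneg x).lt_or_eq with h0 | h0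
  · calc lg A x = lg A (Int.fract x + n) := by rw [← hx1]
      _ = lg A (Int.fract x) := lg_add_nat A _ h0 n
      _ = g A x := rfl
  · have hx2 : x = (n : ℚ) := by rw [← h0, zero_add] at hx1; exact hx1
    have hn0 : n ≠ 0 := by
      rintro rfl
      rw [hx2] at hx
      simp at hx
    obtain ⟨k, rfl⟩ := Nat.exists_eq_succ_of_ne_zero hn0
    have h1 : g A x = 0 := by
      rw [hx2]
      have := g_int A ((k + 1 : ℕ) : ℤ)
      simpa using this
    rw [h1, hx2]
    have h2 := lg_add_nat A 1 one_pos k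
    rw [show ((k.succ : ℕ) : ℚ) = 1 + (k : ℚ) by push_cast; ring, h2]
    unfold lg
    simp

/-- the reflection formula -/
lemma g_neg (hpi : IsAlgebraic A (π : ℂ)) (x : ℚ) : g A x + g A (-x) = 0 := by
  rcases (Int.fract_nonneg x).lt_or_eq with h0 | h0
  · have h1 : Int.fract (-x) = 1 - Int.fract x := by
      exact Int.fract_neg h0.ne'
    unfold g
    rw [h1]
    set y := Int.fract x with hy
    have hy1 : y < 1 := Int.fract_lt_one x
    have hy0' : (0 : ℝ) < y := by exact_mod_cast h0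
    have hy1' : (y : ℝ) < 1 := by exact_mod_cast hy1
    have hsin : 0 < Real.sin (π * y) := by
      apply Real.sin_pos_of_pos_of_lt_pi
      · positivity
      · nlinarith [Real.pi_pos]
    rw [← mk_add]
    have e : ((1 - y : ℚ) : ℝ) = 1 - (y : ℝ) := by push_cast; ring
    rw [e, ← Real.log_mul (Real.Gamma_pos_of_pos hy0').ne' (Real.Gamma_pos_of_pos (by linarith)).ne',
      Real.Gamma_mul_Gamma_one_sub]
    apply mk_eq_zero
    apply log_mem_Lam (by positivity)
    have h2 : IsAlgebraic A ((π : ℂ) * (Complex.sin ((π : ℂ) * y))⁻¹) := hpi.mul (ext_scal (alg_sin y)).inv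
    have h3 : ((π / Real.sin (π * (y : ℝ)) : ℝ) : ℂ) = (π : ℂ) * (Complex.sin ((π : ℂ) * y))⁻¹ := by
      push_cast
      rw [div_eq_mul_inv]
    rw [h3]
    exact h2
  · have hx1 : x = ((⌊x⌋ : ℤ) : ℚ) := by
      have h := Int.fract_add_floor x
      rw [← h0, zero_add] at h
      exact h.symm
    have h1 : g A x = 0 := by
      rw [hx1]
      exact g_int A _
    have h2 : g A (-x) = 0 := by
      rw [hx1]
      have := g_int A (-⌊x⌋)
      push_cast at this
      exact this
    rw [h1, h2, add_zero]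

/-- the right-hand side of the distribution relation is periodic -/
lemma rhs_periodic (m : ℕ) (hm : 0 < m) (x : ℚ) (n : ℕ) :
    ∑ j ∈ Finset.range m, g A ((x + n + j) / m) = ∑ j ∈ Finset.range m, g A ((x + j) / m) := by
  induction n with
  | zero => simp
  | succ n ih =>
    rw [← ih]
    have hm' : (m : ℚ) ≠ 0 := by exact_mod_cast hm.ne'
    have h1 := Finset.sum_range_succ (fun j : ℕ => g A ((x + n + j) / m)) m
    have h2 := Finset.sum_range_succ' (fun j : ℕ => g A ((x + n + j) / m)) m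
    rw [h1] at h2
    have h3 : g A ((x + n + (m : ℕ)) / m) = g A ((x + n + ((0 : ℕ) : ℚ)) / m) := by
      have e : (x + n + (m : ℕ)) / m = (x + n + ((0 : ℕ) : ℚ)) / m + (1 : ℕ) := by
        push_cast
        field_simp
        ring
      rw [e, g_add_nat]
    rw [h3] at h2
    have h4 := add_right_cancel h2
    rw [h4]
    apply Finset.sum_congr rfl
    intro j _
    congr 2
    push_cast
    ring

/-- the sum over the points of order dividing `m` vanishes -/
lemma sum_div_zero (hpi : IsAlgebraic A (π : ℂ)) (m : ℕ) (hm : 0 < m) :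
    ∑ j ∈ Finset.range m, g A ((j : ℚ) / m) = 0 := by
  have hm' : (m : ℚ) ≠ 0 := by exact_mod_cast hm.ne'
  have h1 : ∑ j ∈ Finset.range m, g A ((j : ℚ) / m) = ∑ j ∈ Finset.range m, g A (-((j : ℚ) / m)) := by
    obtain ⟨k, rfl⟩ := Nat.exists_eq_succ_of_ne_zero hm.ne'
    rw [Finset.sum_range_succ', Finset.sum_range_succ']
    congr 1
    · rw [← Finset.sum_range_reflect]
      apply Finset.sum_congr rfl
      intro j hj
      rw [Finset.mem_range] at hj
      have e : (((k - 1 - j + 1 : ℕ) : ℚ)) / (k.succ : ℕ) = -(((j + 1 : ℕ) : ℚ) / (k.succ : ℕ)) + (1 : ℕ) := by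
        have e2 : ((k - 1 - j + 1 : ℕ) : ℚ) = (k : ℚ) - j := by
          have e3 : k - 1 - j + 1 = k - j := by omega
          rw [e3, Nat.cast_sub hj.le]
        rw [e2]
        push_cast
        field_simp
        ring
      rw [e, g_add_nat]
    · simp
  have h2 : ∑ j ∈ Finset.range m, g A ((j : ℚ) / m) + ∑ j ∈ Finset.range m, g A (-((j : ℚ) / m)) = 0 := by
    rw [← Finset.sum_add_distrib]
    apply Finset.sum_eq_zero
    intro j _
    exact g_neg A hpi _
  rw [← h1, ← two_smul ℚ] at h2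
  exact (smul_eq_zero.1 h2).resolve_left (by norm_num)

/-- the distribution relation -/
lemma g_dist (hpi : IsAlgebraic A (π : ℂ)) (m : ℕ) (hm : 0 < m) (x : ℚ) :
    g A x = ∑ j ∈ Finset.range m, g A ((x + j) / m) := by
  obtain ⟨C, hC, hG⟩ := Pool.Agent.R260.Lr.gauss m hm
  have hm' : (m : ℚ) ≠ 0 := by exact_mod_cast hm.ne'
  have hmp : (0 : ℚ) < m := by exact_mod_cast hm
  have hmr : (0 : ℝ) < m := by exact_mod_cast hm
  -- the relation for positive arguments
  have key : ∀ y : ℚ, 0 < y → g A y = Submodule.Quotient.mk (Real.log C) + ∑ j ∈ Finset.range m, g A ((y + j) / m) := by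
    intro y hy
    have hy' : (0 : ℝ) < y := by exact_mod_cast hy
    have h1 := hG y hy'
    have hprod : ∀ j ∈ Finset.range m, Real.Gamma (((y : ℝ) + j) / m) ≠ 0 := by
      intro j _
      exact (Real.Gamma_pos_of_pos (by positivity)).ne'
    have h2 : Real.log (Real.Gamma y) = Real.log C + Real.log ((m : ℝ) ^ (y : ℝ)) +
        ∑ j ∈ Finset.range m, Real.log (Real.Gamma (((y : ℝ) + j) / m)) := by
      rw [h1, Real.log_mul (by positivity) (Finset.prod_ne_zero_iff.2 hprod), Real.log_mul hC.ne' (by positivity),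
        Real.log_prod hprod]
    have h3 : (Submodule.Quotient.mk (Real.log ((m : ℝ) ^ (y : ℝ))) : ℝ ⧸ Lam A) = 0 := by
      apply mk_eq_zero
      apply log_mem_Lam (by positivity)
      exact ext_scal (alg_rpow m y)
    rw [← lg_eq_g A y hy]
    unfold lg
    rw [h2, mk_add, mk_add, h3, add_zero, mk_sum]
    congr 1
    apply Finset.sum_congr rfl
    intro j _
    rw [← lg_eq_g A _ (by positivity)]
    unfold lg
    push_cast
    rfl
  have hC0 : (Submodule.Quotient.mk (Real.log C) : ℝ ⧸ Lam A) = 0 := by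
    have h1 := key 1 one_pos
    have h2 : g A 1 = 0 := by
      have := g_int A 1
      simpa using this
    have h3 := rhs_periodic A m hm 0 1
    have h4 : ∑ j ∈ Finset.range m, g A ((1 + (j : ℚ)) / m) = ∑ j ∈ Finset.range m, g A ((j : ℚ) / m) := by
      simpa using h3
    rw [h2, h4, sum_div_zero A hpi m hm, add_zero] at h1
    exact h1.symm
  obtain ⟨n, hn⟩ := exists_nat_gt (-x)
  have h5 := key (x + n) (by linarith)
  rw [hC0, zero_add, rhs_periodic A m hm x n, g_add_nat] at h5
  exact h5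

end Pool.Agent.Helper606_LR
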