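import Pool.Agent.Helper606_LR.Rel

/-!
# The rank of the classes of `log Γ(b / q)`
-/

set_option autoImplicit false

open Real Finset Module

namespace Pool.Agent.Helper606_LR

/-- the complexification of a rational function -/
noncomputable def cx (q : ℕ) (f : (ZMod q)ˣ → ℚ) : (ZMod q)ˣ → ℂ := fun b => (f b : ℂ)

lemma finrank_cx_le (q : ℕ) [NeZero q] (K : Submodule ℚ ((ZMod q)ˣ → ℚ)) :
    finrank ℂ (Submodule.span ℂ (cx q '' (K : Set ((ZMod q)ˣ → ℚ)))) ≤ finrank ℚ K := by
  let bas := Module.finBasis ℚ K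
  have h1 : Submodule.span ℂ (cx q '' (K : Set ((ZMod q)ˣ → ℚ))) ≤
      Submodule.span ℂ (Set.range fun i => cx q (bas i : (ZMod q)ˣ → ℚ)) := by
    rw [Submodule.span_le]
    rintro _ ⟨f, hf, rfl⟩
    have h2 : (⟨f, hf⟩ : K) = ∑ i, bas.repr ⟨f, hf⟩ i • bas i := (bas.sum_repr _).symm
    have h3 : f = ∑ i, bas.repr ⟨f, hf⟩ i • (bas i : (ZMod q)ˣ → ℚ) :=
      (congrArg K.subtype h2).trans (map_sum K.subtype _ _)
    have h4 : cx q f = ∑ i, ((bas.repr ⟨f, hf⟩ i : ℚ) : ℂ) • cx q (bas i : (ZMod q)ˣ → ℚ) := by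
      funext b
      have h5 := congrFun h3 b
      show ((f b : ℚ) : ℂ) = _
      rw [h5]
      simp only [Finset.sum_apply, Pi.smul_apply, smul_eq_mul, cx]
      push_cast
      rfl
    rw [SetLike.mem_coe, h4]
    exact Submodule.sum_mem _ fun i _ => Submodule.smul_mem _ _ (Submodule.subset_span ⟨i, rfl⟩)
  refine (Submodule.finrank_mono h1).trans ?_
  have h6 := finrank_range_le_card (R := ℂ) (fun i => cx q (bas i : (ZMod q)ˣ → ℚ))
  rw [Fintype.card_fin] at h6
  exact h6

/-- the values of a Dirichlet character on units -/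
noncomputable def vals (q : ℕ) (χ : DirichletCharacter ℂ q) : (ZMod q)ˣ → ℂ := fun b => χ b

/-- the values of a Dirichlet character on units, as a homomorphism -/
noncomputable def valsHom (q : ℕ) (χ : DirichletCharacter ℂ q) : (ZMod q)ˣ →* ℂ :=
  (Units.coeHom ℂ).comp χ.toUnitHom

lemma valsHom_apply (q : ℕ) (χ : DirichletCharacter ℂ q) (b : (ZMod q)ˣ) : valsHom q χ b = χ b := by
  simp [valsHom]

lemma valsHom_injective (q : ℕ) : Function.Injective (valsHom q) := by
  intro χ χ' h
  apply MulChar.ext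
  intro b
  have := DFunLike.congr_fun h b
  rwa [valsHom_apply, valsHom_apply] at this

lemma linInd_vals (q : ℕ) : LinearIndependent ℂ (vals q) := by
  have h1 := linearIndependent_monoidHom (ZMod q)ˣ ℂ
  have h3 := h1.comp (valsHom q) (valsHom_injective q)
  have h4 : (fun f : (ZMod q)ˣ →* ℂ => (f : (ZMod q)ˣ → ℂ)) ∘ valsHom q = vals q := by
    funext χ b
    exact valsHom_apply q χ b
  rw [h4] at h3
  exact h3

lemma vals_mem (q : ℕ) [NeZero q] (K : Submodule ℚ ((ZMod q)ˣ → ℚ)) (χ : DirichletCharacter ℂ q)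
    (h : ∀ z : ℂ, z ≠ 0 → (fun b : (ZMod q)ˣ => if χ b = z then (1 : ℚ) else 0) ∈ K) :
    vals q χ ∈ Submodule.span ℂ (cx q '' (K : Set ((ZMod q)ˣ → ℚ))) := by
  classical
  let I : Finset ℂ := Finset.univ.image fun b : (ZMod q)ˣ => χ b
  have h1 : vals q χ = ∑ z ∈ I, z • cx q (fun b : (ZMod q)ˣ => if χ b = z then (1 : ℚ) else 0) := by
    funext b
    simp only [Finset.sum_apply, Pi.smul_apply, smul_eq_mul, cx, vals]
    rw [Finset.sum_eq_single (χ b)]
    · simp
    · intro z _ hz
      rw [if_neg (Ne.symm hz)]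
      simp
    · intro hb
      exact absurd (Finset.mem_image.2 ⟨b, Finset.mem_univ _, rfl⟩) hb
  rw [h1]
  refine Submodule.sum_mem _ fun z hz => Submodule.smul_mem _ _ (Submodule.subset_span ⟨_, h z ?_, rfl⟩)
  obtain ⟨b, -, rfl⟩ := Finset.mem_image.1 hz
  have hu : IsUnit (χ (b : ZMod q)) := b.isUnit.map χ
  exact hu.ne_zero

lemma card_le_of_level_sets (q : ℕ) [NeZero q] (K : Submodule ℚ ((ZMod q)ˣ → ℚ)) (P : DirichletCharacter ℂ q → Prop)
    (h : ∀ χ, P χ → ∀ z : ℂ, z ≠ 0 → (fun b : (ZMod q)ˣ => if χ b = z then (1 : ℚ) else 0) ∈ K) :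
    Nat.card {χ : DirichletCharacter ℂ q // P χ} ≤ finrank ℚ K := by
  classical
  have : Finite (DirichletCharacter ℂ q) := inferInstance
  have : Fintype {χ : DirichletCharacter ℂ q // P χ} := Fintype.ofFinite _
  have h1 : LinearIndependent ℂ (fun χ : {χ : DirichletCharacter ℂ q // P χ} => vals q χ.1) :=
    (linInd_vals q).comp _ Subtype.val_injective
  have h2 := finrank_span_eq_card h1
  have h3 : Submodule.span ℂ (Set.range fun χ : {χ : DirichletCharacter ℂ q // P χ} => vals q χ.1) ≤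
      Submodule.span ℂ (cx q '' (K : Set ((ZMod q)ˣ → ℚ))) := by
    rw [Submodule.span_le]
    rintro _ ⟨χ, rfl⟩
    exact vals_mem q K χ.1 (h χ.1 χ.2)
  rw [Nat.card_eq_fintype_card, ← h2]
  exact (Submodule.finrank_mono h3).trans (finrank_cx_le q K)

/-- the odd characters modulo `q` whose primitive character is different from `1` at all prime divisors of `q` -/
def Good (q : ℕ) (χ : DirichletCharacter ℂ q) : Prop :=
  χ.Odd ∧ ∀ p : ℕ, p.Prime → p ∣ q → χ.primitiveCharacter p ≠ 1

lemma rank_le (A : Subalgebra ℚ ℂ) (hpi : IsAlgebraic A (π : ℂ)) (q : ℕ) [NeZero q] (hq : 1 < q) :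
    finrank ℚ (Submodule.span ℚ (Set.range (u A q))) ≤ Nat.card {χ : DirichletCharacter ℂ q // Good q χ} := by
  classical
  let T : ((ZMod q)ˣ → ℚ) →ₗ[ℚ] (ℝ ⧸ Lam A) := Fintype.linearCombination ℚ (u A q)
  have h1 := LinearMap.finrank_range_add_finrank_ker T
  have h2 : LinearMap.range T = Submodule.span ℚ (Set.range (u A q)) := Fintype.range_linearCombination ℚ (u A q)
  rw [h2] at h1
  have h3 : Nat.card {χ : DirichletCharacter ℂ q // ¬ Good q χ} ≤ finrank ℚ (LinearMap.ker T) := by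
    apply card_le_of_level_sets
    intro χ hχ z hz
    rw [LinearMap.mem_ker]
    show Fintype.linearCombination ℚ (u A q) _ = 0
    rw [Fintype.linearCombination_apply]
    by_cases hodd : χ.Odd
    · have h4 : ∃ p : ℕ, p.Prime ∧ p ∣ q ∧ χ.primitiveCharacter p = 1 := by
        by_contra hcon
        push Not at hcon
        exact hχ ⟨hodd, hcon⟩
      obtain ⟨p, hp, hpq, h5⟩ := h4
      exact rel_prime A hpi q χ p hp hpq h5 z hz
    · exact rel_even A hpi q hq χ (χ.even_or_odd.resolve_right hodd) z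
  have h6 : Nat.card {χ : DirichletCharacter ℂ q // Good q χ} + Nat.card {χ : DirichletCharacter ℂ q // ¬ Good q χ} =
      Nat.card (DirichletCharacter ℂ q) := by
    have : Fintype (DirichletCharacter ℂ q) := Fintype.ofFinite _
    rw [Nat.card_eq_fintype_card, Nat.card_eq_fintype_card, Nat.card_eq_fintype_card]
    exact (Fintype.card_subtype_compl (Good q)) ▸ (by
      have := Fintype.card_subtype_le (Good q)
      omega)
  have h7 : Nat.card (DirichletCharacter ℂ q) = q.totient := DirichletCharacter.card_eq_totient_of_hasEnoughRootsOfUnity ℂ q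
  have h8 : finrank ℚ ((ZMod q)ˣ → ℚ) = q.totient := by
    rw [Module.finrank_fintype_fun_eq_card, ZMod.card_units_eq_totient]
  omega

end Pool.Agent.Helper606_LR
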