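import Pool.Agent.Helper606_LR.Tr
import Pool.Agent.Helper606_LR.Rank

/-!
# An upper bound for the transcendence degree of the field generated by `π` and the numbers `Γ(a / q)`, `a` prime to `q`
-/

set_option autoImplicit false

open Real Finset Module Cardinal

namespace Pool.Agent.Helper606_LR

lemma alg_mono {A A' : Subalgebra ℚ ℂ} (h : A ≤ A') {z : ℂ} (hz : IsAlgebraic A z) : IsAlgebraic A' z := by
  letI : Algebra A A' := (Subalgebra.inclusion h).toAlgebra
  haveI : IsScalarTower A A' ℂ := IsScalarTower.of_algebraMap_eq (fun x => rfl)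
  exact hz.extendScalars (Subalgebra.inclusion_injective h)

lemma Lam_mono {A A' : Subalgebra ℚ ℂ} (h : A ≤ A') : Lam A ≤ Lam A' := fun _ hx => alg_mono h hx

lemma u_eq (A : Subalgebra ℚ ℂ) (q : ℕ) (hq : 1 < q) (b : (ZMod q)ˣ) :
    u A q b = Submodule.Quotient.mk (Real.log (Real.Gamma (((b : ZMod q).val : ℝ) / q))) := by
  have : NeZero q := ⟨by omega⟩
  have : Fact (1 < q) := ⟨hq⟩
  have hb : (b : ZMod q) ≠ 0 := b.ne_zero
  have hv : 0 < (b : ZMod q).val := Nat.pos_of_ne_zero fun h => hb ((ZMod.val_eq_zero _).1 h)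
  have hq0 : (0 : ℚ) < q := by exact_mod_cast (by omega : 0 < q)
  have hv' : (0 : ℚ) < (b : ZMod q).val := by exact_mod_cast hv
  unfold u
  rw [← lg_eq_g A _ (by positivity)]
  unfold lg
  push_cast
  rfl

/-- the set of generators -/
def gens (q : ℕ) : Set ℂ :=
  {(π : ℂ)} ∪ {z : ℂ | ∃ a : ℕ, 1 ≤ a ∧ a ≤ q - 1 ∧ Nat.gcd a q = 1 ∧ z = Complex.Gamma ((a : ℂ) / (q : ℂ))}

lemma gamma_unit_mem (q : ℕ) (hq : 1 < q) (b : (ZMod q)ˣ) :
    Complex.Gamma (((b : ZMod q).val : ℂ) / (q : ℂ)) ≠ 0 := by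
  have : NeZero q := ⟨by omega⟩
  have : Fact (1 < q) := ⟨hq⟩
  have hb : (b : ZMod q) ≠ 0 := b.ne_zero
  have hv : 0 < (b : ZMod q).val := Nat.pos_of_ne_zero fun h => hb ((ZMod.val_eq_zero _).1 h)
  have hq0 : (0 : ℝ) < q := by exact_mod_cast (by omega : 0 < q)
  have hv' : (0 : ℝ) < (b : ZMod q).val := by exact_mod_cast hv
  have h1 : (((b : ZMod q).val : ℂ) / (q : ℂ)) = (((((b : ZMod q).val : ℝ) / q : ℝ)) : ℂ) := by push_cast; rfl
  rw [h1, Complex.Gamma_ofReal]
  exact_mod_cast (Real.Gamma_pos_of_pos (by positivity)).ne'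

lemma gamma_unit_pos (q : ℕ) (hq : 1 < q) (b : (ZMod q)ˣ) : 0 < Real.Gamma (((b : ZMod q).val : ℝ) / q) := by
  have : NeZero q := ⟨by omega⟩
  have : Fact (1 < q) := ⟨hq⟩
  have hb : (b : ZMod q) ≠ 0 := b.ne_zero
  have hv : 0 < (b : ZMod q).val := Nat.pos_of_ne_zero fun h => hb ((ZMod.val_eq_zero _).1 h)
  have hq0 : (0 : ℝ) < q := by exact_mod_cast (by omega : 0 < q)
  have hv' : (0 : ℝ) < (b : ZMod q).val := by exact_mod_cast hv
  exact Real.Gamma_pos_of_pos (by positivity)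

lemma gamma_cast (q : ℕ) (b : (ZMod q)ˣ) :
    ((Real.Gamma (((b : ZMod q).val : ℝ) / q) : ℝ) : ℂ) = Complex.Gamma (((b : ZMod q).val : ℂ) / (q : ℂ)) := by
  rw [← Complex.Gamma_ofReal]
  push_cast
  rfl

theorem trdeg_bound (q : ℕ) (hq : 1 < q) :
    Algebra.trdeg ℚ (IntermediateField.adjoin ℚ (gens q)) ≤
      ((1 + Nat.card {χ : DirichletCharacter ℂ q // Good q χ} : ℕ) : Cardinal) := by
  classical
  have : NeZero q := ⟨by omega⟩
  let A0 : Subalgebra ℚ ℂ := Algebra.adjoin ℚ {(π : ℂ)}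
  have hpi0 : IsAlgebraic A0 (π : ℂ) :=
    isAlgebraic_algebraMap (⟨(π : ℂ), Algebra.subset_adjoin (Set.mem_singleton _)⟩ : A0)
  obtain ⟨B, hB1, hB2, hB3⟩ := exists_linearIndependent ℚ (Set.range (u A0 q))
  have hfin : B.Finite := (Set.finite_range _).subset hB1
  have : Fintype B := hfin.fintype
  have hcard : Fintype.card B ≤ Nat.card {χ : DirichletCharacter ℂ q // Good q χ} := by
    have h1 := finrank_span_eq_card hB3
    rw [Subtype.range_coe, hB2] at h1
    rw [← h1]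
    exact rank_le A0 hpi0 q hq
  have hch : ∀ v : B, ∃ b : (ZMod q)ˣ, u A0 q b = v := fun v => hB1 v.2
  choose β hβ using hch
  let s : Set ℂ := insert (π : ℂ) (Set.range fun v : B => Complex.Gamma (((β v : ZMod q).val : ℂ) / (q : ℂ)))
  have hs : #s ≤ ((1 + Nat.card {χ : DirichletCharacter ℂ q // Good q χ} : ℕ) : Cardinal) := by
    have h1 := Cardinal.mk_insert_le (s := Set.range fun v : B => Complex.Gamma (((β v : ZMod q).val : ℂ) / (q : ℂ)))
      (a := (π : ℂ))
    have h2 : #(Set.range fun v : B => Complex.Gamma (((β v : ZMod q).val : ℂ) / (q : ℂ))) ≤ (Fintype.card B : Cardinal) := by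
      have h3 := Cardinal.mk_range_le_lift (f := fun v : B => Complex.Gamma (((β v : ZMod q).val : ℂ) / (q : ℂ)))
      simpa using h3
    calc #s ≤ _ + 1 := h1
      _ ≤ (Fintype.card B : Cardinal) + 1 := by gcongr
      _ = ((1 + Fintype.card B : ℕ) : Cardinal) := by push_cast; rw [add_comm]
      _ ≤ _ := by exact_mod_cast Nat.add_le_add_left hcard 1
  refine le_trans (trdeg_le _ s ?_) hs
  set A1 : Subalgebra ℚ ℂ := Algebra.adjoin ℚ s with hA1
  have hle : A0 ≤ A1 := Algebra.adjoin_mono (by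
    intro z hz
    rw [Set.mem_singleton_iff] at hz
    rw [hz]
    exact Set.mem_insert _ _)
  have hmem : ∀ z ∈ s, IsAlgebraic A1 z := fun z hz =>
    isAlgebraic_algebraMap (⟨z, Algebra.subset_adjoin hz⟩ : A1)
  have hpi1 : IsAlgebraic A1 (π : ℂ) := hmem _ (Set.mem_insert _ _)
  let φ := Submodule.factor (Lam_mono hle)
  have hφ : ∀ b : (ZMod q)ˣ, φ (u A0 q b) = u A1 q b := by
    intro b
    rw [u_eq A0 q hq b, u_eq A1 q hq b]
    exact Submodule.factor_mk (Lam_mono hle) _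
  have hφB : ∀ v : B, φ v = 0 := by
    intro v
    rw [← hβ v, hφ, u_eq A1 q hq]
    apply mk_eq_zero
    apply log_mem_Lam (gamma_unit_pos q hq _)
    rw [gamma_cast]
    exact hmem _ (Set.mem_insert_of_mem _ ⟨v, rfl⟩)
  have hall : ∀ b : (ZMod q)ˣ, IsAlgebraic A1 (Complex.Gamma (((b : ZMod q).val : ℂ) / (q : ℂ))) := by
    intro b
    have h1 : u A0 q b ∈ Submodule.span ℚ B := by
      rw [hB2]
      exact Submodule.subset_span ⟨b, rfl⟩
    have h2 : Submodule.span ℚ B ≤ LinearMap.ker φ := by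
      rw [Submodule.span_le]
      intro v hv
      exact hφB ⟨v, hv⟩
    have h3 : φ (u A0 q b) = 0 := h2 h1
    rw [hφ, u_eq A1 q hq, Submodule.Quotient.mk_eq_zero, mem_Lam, Real.exp_log (gamma_unit_pos q hq b), gamma_cast] at h3
    exact h3
  intro z hz
  rcases hz with hz | ⟨a, ha1, ha2, ha3, rfl⟩
  · rw [Set.mem_singleton_iff] at hz
    rw [hz]
    exact hpi1
  · have h1 := hall (ZMod.unitOfCoprime a ha3)
    rw [ZMod.coe_unitOfCoprime, ZMod.val_cast_of_lt (by omega)] at h1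
    exact h1

end Pool.Agent.Helper606_LR
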