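import Pool.Agent.Helper606_LR.Dist

/-!
# Relations between the classes of `log Γ(t / q)`, `t` prime to `q`
-/

set_option autoImplicit false

open Real Finset

namespace Pool.Agent.Helper606_LR

lemma sum_blocks {V : Type} [AddCommMonoid V] (f : ℕ → V) (d M : ℕ) :
    ∑ t ∈ range (d * M), f t = ∑ j ∈ range d, ∑ a ∈ range M, f (j * M + a) := by
  induction d with
  | zero => simp
  | succ d ih =>
    rw [Nat.succ_mul, Finset.sum_range_add, ih, Finset.sum_range_succ]

variable (A : Subalgebra ℚ ℂ)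

lemma sum_level (hpi : IsAlgebraic A (π : ℂ)) (M d : ℕ) (hM : 0 < M) (hd : 0 < d) (ψ : ℕ → ℚ)
    (hψ : ∀ t, ψ (t + M) = ψ t) :
    ∑ t ∈ range (d * M), ψ t • g A ((t : ℚ) / ((d * M : ℕ) : ℚ)) = ∑ a ∈ range M, ψ a • g A ((a : ℚ) / M) := by
  have hM' : (M : ℚ) ≠ 0 := by exact_mod_cast hM.ne'
  have hd' : (d : ℚ) ≠ 0 := by exact_mod_cast hd.ne'
  have hper : ∀ j a : ℕ, ψ (j * M + a) = ψ a := by
    intro j a
    induction j with
    | zero => simp
    | succ j ih =>
      rw [Nat.succ_mul, add_right_comm, hψ, ih]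
  rw [sum_blocks, Finset.sum_comm]
  apply Finset.sum_congr rfl
  intro a _
  rw [g_dist A hpi d hd ((a : ℚ) / M), Finset.smul_sum]
  apply Finset.sum_congr rfl
  intro j _
  rw [hper]
  congr 2
  push_cast
  field_simp
  ring

lemma sum_dvd {V : Type} [AddCommMonoid V] (f : ℕ → V) (p Q : ℕ) (hp : 0 < p) :
    ∑ t ∈ range (Q * p), (if p ∣ t then f t else 0) = ∑ c ∈ range Q, f (p * c) := by
  rw [sum_blocks]
  apply Finset.sum_congr rfl
  intro j _
  rw [Finset.sum_eq_single 0]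
  · simp [mul_comm]
  · intro a ha ha0
    rw [Finset.mem_range] at ha
    rw [if_neg]
    intro h
    have h1 : p ∣ a := by
      have := (Nat.dvd_add_right (Dvd.intro_left j rfl)).1 h
      exact this
    exact ha0 (Nat.eq_zero_of_dvd_of_lt h1 ha)
  · intro h
    exact absurd (Finset.mem_range.2 hp) h

/-- the basic relation -/
lemma sum_rel (hpi : IsAlgebraic A (π : ℂ)) (p k m : ℕ) (hp : 0 < p) (hm : 0 < m) (ψ : ℕ → ℚ)
    (hψ : ∀ t, ψ (t + m) = ψ t) (hψp : ∀ t, ψ (p * t) = ψ t) :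
    ∑ t ∈ range (p ^ (k + 1) * m), (if p ∣ t then 0 else ψ t) • g A ((t : ℚ) / ((p ^ (k + 1) * m : ℕ) : ℚ)) = 0 := by
  have hp' : (p : ℚ) ≠ 0 := by exact_mod_cast hp.ne'
  have hm' : (m : ℚ) ≠ 0 := by exact_mod_cast hm.ne'
  have h1 := sum_level A hpi m (p ^ (k + 1)) hm (by positivity) ψ hψ
  have h2 := sum_level A hpi m (p ^ k) hm (by positivity) ψ hψ
  have h3 := sum_dvd (fun t => ψ t • g A ((t : ℚ) / ((p ^ (k + 1) * m : ℕ) : ℚ))) p (p ^ k * m) hp
  have e1 : p ^ k * m * p = p ^ (k + 1) * m := by ring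
  rw [e1] at h3
  have h4 : ∑ c ∈ range (p ^ k * m), ψ (p * c) • g A (((p * c : ℕ) : ℚ) / ((p ^ (k + 1) * m : ℕ) : ℚ)) =
      ∑ c ∈ range (p ^ k * m), ψ c • g A ((c : ℚ) / ((p ^ k * m : ℕ) : ℚ)) := by
    apply Finset.sum_congr rfl
    intro c _
    rw [hψp]
    congr 2
    push_cast
    field_simp
    ring
  have h5 : ∀ t : ℕ, (if p ∣ t then 0 else ψ t) • g A ((t : ℚ) / ((p ^ (k + 1) * m : ℕ) : ℚ)) =
      ψ t • g A ((t : ℚ) / ((p ^ (k + 1) * m : ℕ) : ℚ)) -
      (if p ∣ t then ψ t • g A ((t : ℚ) / ((p ^ (k + 1) * m : ℕ) : ℚ)) else 0) := by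
    intro t
    split_ifs <;> simp
  simp_rw [h5]
  rw [Finset.sum_sub_distrib, h1, h3, h4, h2, sub_self]

/-- a sum over the units modulo `q` as a sum over `range q` -/
lemma sum_units {V : Type} [AddCommMonoid V] (q : ℕ) [NeZero q] (f : ℕ → V) :
    ∑ b : (ZMod q)ˣ, f (b : ZMod q).val = ∑ t ∈ range q, (if Nat.Coprime t q then f t else 0) := by
  rw [← Finset.sum_filter]
  refine Finset.sum_bij' (fun b _ => (b : ZMod q).val)
    (fun t ht => ZMod.unitOfCoprime t (Finset.mem_filter.1 ht).2) ?_ ?_ ?_ ?_ ?_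
  · intro b _
    rw [Finset.mem_filter, Finset.mem_range]
    exact ⟨ZMod.val_lt _, ZMod.val_coe_unit_coprime b⟩
  · intro t _
    exact Finset.mem_univ _
  · intro b _
    apply Units.ext
    rw [ZMod.coe_unitOfCoprime]
    exact ZMod.natCast_zmod_val _
  · intro t ht
    rw [ZMod.coe_unitOfCoprime]
    exact ZMod.val_cast_of_lt (Finset.mem_range.1 (Finset.mem_filter.1 ht).1)
  · intro b _
    rfl

/-- the class of `log Γ(b / q)` for a unit `b` modulo `q` -/
noncomputable def u (q : ℕ) (b : (ZMod q)ˣ) : ℝ ⧸ Lam A := g A (((b : ZMod q).val : ℚ) / q)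

lemma u_neg (hpi : IsAlgebraic A (π : ℂ)) (q : ℕ) (hq : 1 < q) (b : (ZMod q)ˣ) : u A q (-b) = -u A q b := by
  have : NeZero q := ⟨by omega⟩
  have : Fact (1 < q) := ⟨hq⟩
  have hq' : (q : ℚ) ≠ 0 := by exact_mod_cast (by omega : q ≠ 0)
  unfold u
  have hb : (b : ZMod q) ≠ 0 := b.ne_zero
  have hb' : NeZero (b : ZMod q) := ⟨hb⟩
  have h1 : ((-b : (ZMod q)ˣ) : ZMod q).val = q - (b : ZMod q).val := by
    rw [Units.val_neg, ZMod.val_neg_of_ne_zero]
  have h2 : (b : ZMod q).val < q := ZMod.val_lt _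
  rw [h1, Nat.cast_sub h2.le]
  have e : ((q : ℚ) - ((b : ZMod q).val : ℚ)) / q = -(((b : ZMod q).val : ℚ) / q) + (1 : ℕ) := by
    push_cast
    field_simp
    ring
  rw [e, g_add_nat]
  have h3 := g_neg A hpi (((b : ZMod q).val : ℚ) / q)
  exact (neg_eq_of_add_eq_zero_right h3).symm

/-- the relation given by the reflection formula, for the level sets of an even character -/
lemma rel_even (hpi : IsAlgebraic A (π : ℂ)) (q : ℕ) [NeZero q] (hq : 1 < q) (χ : DirichletCharacter ℂ q) (hχ : χ.Even) (z : ℂ) :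
    ∑ b : (ZMod q)ˣ, (if χ b = z then (1 : ℚ) else 0) • u A q b = 0 := by
  have h1 : ∑ b : (ZMod q)ˣ, (if χ b = z then (1 : ℚ) else 0) • u A q b =
      ∑ b : (ZMod q)ˣ, (if χ b = z then (1 : ℚ) else 0) • u A q (-b) := by
    rw [← Equiv.sum_comp (Equiv.neg (ZMod q)ˣ)]
    apply Finset.sum_congr rfl
    intro b _
    simp only [Equiv.neg_apply, Units.val_neg]
    rw [hχ.eval_neg]
  have h2 : ∑ b : (ZMod q)ˣ, (if χ b = z then (1 : ℚ) else 0) • u A q (-b) =
      - ∑ b : (ZMod q)ˣ, (if χ b = z then (1 : ℚ) else 0) • u A q b := by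
    rw [← Finset.sum_neg_distrib]
    apply Finset.sum_congr rfl
    intro b _
    rw [u_neg A hpi q hq, smul_neg]
  rw [h2] at h1
  have h3 := eq_neg_iff_add_eq_zero.1 h1
  rw [← two_smul ℚ] at h3
  exact (smul_eq_zero.1 h3).resolve_left (by norm_num)

/-- the relation given by the multiplication formula, for the level sets of a character induced from the part of the
modulus prime to `p` -/
lemma rel_aux (hpi : IsAlgebraic A (π : ℂ)) (q : ℕ) [NeZero q] (p k m : ℕ) (hp : p.Prime) (hqm : q = p ^ (k + 1) * m)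
    (hmq : m ∣ q) (θ : DirichletCharacter ℂ m) (hθ : θ p = 1) (z : ℂ) (hz : z ≠ 0) :
    ∑ b : (ZMod q)ˣ, (if (DirichletCharacter.changeLevel hmq θ) b = z then (1 : ℚ) else 0) • u A q b = 0 := by
  have hq0 : q ≠ 0 := NeZero.ne q
  have hm0 : 0 < m := Nat.pos_of_ne_zero (by rintro rfl; simp at hqm; exact hq0 hqm)
  have hpq : p ∣ q := by
    rw [hqm, pow_succ, mul_assoc, mul_left_comm]
    exact Dvd.intro _ rfl
  -- the function
  let ψ : ℕ → ℚ := fun t => if θ (t : ZMod m) = z then 1 else 0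
  have hψ1 : ∀ t, ψ (t + m) = ψ t := by
    intro t
    simp [ψ]
  have hψ2 : ∀ t, ψ (p * t) = ψ t := by
    intro t
    simp only [ψ]
    push_cast
    rw [map_mul, hθ, one_mul]
  have h1 := sum_rel A hpi p k m hp.pos hm0 ψ hψ1 hψ2
  rw [← hqm] at h1
  have h2 : ∀ b : (ZMod q)ˣ, (if (DirichletCharacter.changeLevel hmq θ) b = z then (1 : ℚ) else 0) • u A q b =
      (fun t : ℕ => ψ t • g A ((t : ℚ) / q)) (b : ZMod q).val := by
    intro b
    have h3 : ((b : ZMod q).val : ZMod m) = (b : ZMod q).cast := ZMod.natCast_val _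
    simp only [ψ, u]
    rw [DirichletCharacter.changeLevel_eq_cast_of_dvd, ← h3]
  simp_rw [h2]
  rw [sum_units q (fun t : ℕ => ψ t • g A ((t : ℚ) / q))]
  refine Eq.trans ?_ h1
  apply Finset.sum_congr rfl
  intro t _
  by_cases hpt : p ∣ t
  · rw [if_pos hpt, zero_smul, if_neg]
    intro h
    have := Nat.Coprime.coprime_dvd_right hpq h
    exact (Nat.Prime.coprime_iff_not_dvd hp).1 this.symm hpt
  · rw [if_neg hpt]
    by_cases hc : Nat.Coprime t m
    · rw [if_pos]
      rw [hqm]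
      exact Nat.Coprime.mul_right (Nat.Coprime.pow_right _ ((Nat.Prime.coprime_iff_not_dvd hp).2 hpt).symm) hc
    · rw [if_neg]
      · have h3 : θ (t : ZMod m) = 0 := by
          apply θ.map_nonunit
          rw [ZMod.isUnit_iff_coprime]
          exact hc
        have h4 : ψ t = 0 := by
          simp only [ψ]
          rw [h3, if_neg hz.symm]
        rw [h4, zero_smul]
      · intro h
        rw [hqm] at h
        exact hc (Nat.Coprime.coprime_dvd_right (Dvd.intro_left _ rfl) h)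

/-- the relation given by the multiplication formula, for the level sets of a character whose primitive character takes
the value `1` at a prime divisor of the modulus -/
lemma rel_prime (hpi : IsAlgebraic A (π : ℂ)) (q : ℕ) [NeZero q] (χ : DirichletCharacter ℂ q) (p : ℕ)
    (hp : p.Prime) (hpq : p ∣ q) (hχ : χ.primitiveCharacter p = 1) (z : ℂ) (hz : z ≠ 0) :
    ∑ b : (ZMod q)ˣ, (if χ b = z then (1 : ℚ) else 0) • u A q b = 0 := by
  have hq0 : q ≠ 0 := NeZero.ne q
  have : Fact p.Prime := ⟨hp⟩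
  have hmem := (DirichletCharacter.mem_subgroupOfPrimitiveMapToOne_iff (χ := χ) p).2 hχ
  simp only [DirichletCharacter.subgroupOfPrimitiveMapToOne, Subgroup.mem_map, DirichletCharacter.mem_annihilator_iff,
    Set.mem_singleton_iff, forall_eq, ZMod.coe_unitOfCoprime] at hmem
  obtain ⟨θ, hθ, rfl⟩ := hmem
  have hk : 0 < q.factorization p := hp.factorization_pos_of_dvd hq0 hpq
  obtain ⟨k, hk⟩ := Nat.exists_eq_succ_of_ne_zero hk.ne'
  have hqm : q = p ^ (k + 1) * (q / p ^ q.factorization p) := by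
    have := Nat.ordProj_mul_ordCompl_eq_self q p
    nth_rewrite 1 [hk] at this
    exact this.symm
  exact rel_aux A hpi q p k _ hp hqm _ θ hθ z hz

end Pool.Agent.Helper606_LR
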