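import Mathlib

/-!
# Transcendence degree of a field generated by elements algebraic over a finitely generated field
-/

set_option autoImplicit false

open Cardinal

namespace Pool.Agent.Helper606_LR

/-- If every element of `T` is algebraic over `ℚ[s]` then the transcendence degree of `ℚ(T)` is at most the cardinality
of `s`. -/
lemma trdeg_le (T s : Set ℂ) (h : ∀ z ∈ T, IsAlgebraic (Algebra.adjoin ℚ s) z) :
    Algebra.trdeg ℚ (IntermediateField.adjoin ℚ T) ≤ #s := by
  let A0 := Algebra.adjoin ℚ s
  let E := Subalgebra.algebraicClosure A0 ℂ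
  have hE : Algebra.IsAlgebraic A0 E := by
    infer_instance
  have h1 : Algebra.trdeg ℚ A0 ≤ #s := by
    have hsurj : Function.Surjective (MvPolynomial.aeval (R := ℚ) (fun x : s => (⟨(x : ℂ), Algebra.subset_adjoin x.2⟩ : A0))) := by
      intro z
      have hz : (z : ℂ) ∈ Algebra.adjoin ℚ s := z.2
      rw [Algebra.adjoin_eq_range] at hz
      obtain ⟨p, hp⟩ := hz
      refine ⟨p, ?_⟩
      apply Subtype.ext
      rw [← hp]
      show A0.val _ = _
      rw [MvPolynomial.comp_aeval_apply]
      rfl
    calc Algebra.trdeg ℚ A0 ≤ Algebra.trdeg ℚ (MvPolynomial s ℚ) := trdeg_le_of_surjective _ hsurj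
      _ = #s := by rw [MvPolynomial.trdeg_of_isDomain]; simp
  have h2 : Algebra.trdeg ℚ E ≤ #s := by
    have h0 : Algebra.trdeg A0 E = 0 := trdeg_eq_zero
    have hinj : Function.Injective (algebraMap A0 E) := by
      intro a b hab
      have h4 : algebraMap A0 ℂ a = algebraMap A0 ℂ b := by
        have h5 := congrArg (fun z : E => (z : ℂ)) hab
        exact h5
      exact Subtype.ext h4
    have hfs : FaithfulSMul A0 E := (faithfulSMul_iff_algebraMap_injective A0 E).2 hinj
    have h3 := trdeg_add_eq ℚ A0 (A := E)
    rw [h0, add_zero] at h3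
    rw [← h3]
    exact h1
  refine le_trans ?_ h2
  -- the inclusion
  have hfield : ∀ z : ℂ, z ∈ E → z⁻¹ ∈ E := by
    intro z hz
    have hz' : IsAlgebraic A0 z := hz
    exact hz'.inv
  let E' : IntermediateField ℚ ℂ :=
    { (E.restrictScalars ℚ) with
      inv_mem' := hfield }
  have hT : IntermediateField.adjoin ℚ T ≤ E' := by
    rw [IntermediateField.adjoin_le_iff]
    intro z hz
    exact h z hz
  let f : IntermediateField.adjoin ℚ T →ₐ[ℚ] E' := IntermediateField.inclusion hT
  have hf : Function.Injective f := (IntermediateField.inclusion hT).injective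
  exact trdeg_le_of_injective (A' := E') f hf

end Pool.Agent.Helper606_LR
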